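import Pool.Agent.H11.NZ.Targets

/-!
# Module FBB of the board nz_modules
-/

set_option autoImplicit false

open Equiv (Perm)

namespace Pool.Agent.H74.NZ.FBB

open Pool.Agent.H11.NZ

theorem pf_fbb : T_FBB := by
  intro I _ _ T _ _ R σ τ hO hnc J hJ hR s hs
  classical
  obtain ⟨i0, hi0⟩ : J.Nonempty := by
    rw [← Finset.card_pos]; omega
  -- the coordinates of `τ w` in `J` are trivial
  have htau : ∀ w : ∀ i, T i, (∀ i ∉ J, w i = 1) → ∀ i ∈ J, τ w i = 1 := by
    intro w hw i hi
    have hk : σ.symm i ∉ J := by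
      intro h
      have := hJ _ h
      rw [Equiv.apply_symm_apply] at this
      exact this hi
    have h1 : w (σ.symm i) = (1 : ∀ i, T i) (σ.symm i) := hw _ hk
    have h2 := hO _ w 1 h1
    rw [map_one, Equiv.apply_symm_apply] at h2
    exact h2
  -- the set is not larger than one factor
  have h1 : Nat.card {w : ∀ i, T i // (∀ i ∉ J, w i = 1) ∧ w⁻¹ * τ w ∈ R} ≤ Nat.card (T i0) := by
    apply Nat.card_le_card_of_injective
      (fun w : {w : ∀ i, T i // (∀ i ∉ J, w i = 1) ∧ w⁻¹ * τ w ∈ R} => w.1 i0)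
    rintro ⟨w, hw, hwR⟩ ⟨w', hw', hwR'⟩ h
    simp only at h
    apply Subtype.ext
    simp only
    have hq : (w⁻¹ * τ w) * (w'⁻¹ * τ w')⁻¹ ∈ R := R.mul_mem hwR (R.inv_mem hwR')
    have hco : ∀ k ∈ J, ((w⁻¹ * τ w) * (w'⁻¹ * τ w')⁻¹) k = (w k)⁻¹ * w' k := by
      intro k hk
      simp only [Pi.mul_apply, Pi.inv_apply, htau w hw k hk, htau w' hw' k hk]
      group
    funext k
    by_cases hk : k ∈ J
    · have e0 : ((w⁻¹ * τ w) * (w'⁻¹ * τ w')⁻¹) i0 = 1 := by
        rw [hco i0 hi0, h]; group
      have e1 := (hR i0 hi0 k hk _ hq).1 e0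
      rw [hco k hk] at e1
      exact (inv_mul_eq_one.1 e1)
    · rw [hw k hk, hw' k hk]
  -- the number of the elements supported on `J`
  have hu : ∀ i, ∃ u : T i, u ≠ 1 := by
    intro i
    obtain ⟨x, y, hxy⟩ := hnc i
    refine ⟨x, ?_⟩
    rintro rfl
    exact hxy (by simp)
  choose u hu using hu
  have h2 : Nat.card (T i0 × {A : Finset I // A ∈ (J.erase i0).powerset}) ≤
      Nat.card {w : ∀ i, T i // ∀ i ∉ J, w i = 1} := by
    let g : T i0 × {A : Finset I // A ∈ (J.erase i0).powerset} →
        {w : ∀ i, T i // ∀ i ∉ J, w i = 1} := fun p =>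
      ⟨Function.update (fun i => if i ∈ p.2.1 then u i else 1) i0 p.1, by
        intro i hi
        have hne : i ≠ i0 := fun h => hi (h ▸ hi0)
        rw [Function.update_of_ne hne]
        have : i ∉ p.2.1 := fun h =>
          hi (Finset.mem_of_mem_erase (Finset.mem_powerset.1 p.2.2 h))
        simp [this]⟩
    apply Nat.card_le_card_of_injective g
    rintro ⟨t, A, hA⟩ ⟨t', A', hA'⟩ h
    have hval := congrArg Subtype.val h
    simp only [g] at hval
    have e1 : t = t' := by
      have := congrFun hval i0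
      simpa using this
    have e2 : A = A' := by
      ext i
      by_cases hi : i = i0
      · subst hi
        constructor
        · intro h
          exact absurd rfl (Finset.ne_of_mem_erase (Finset.mem_powerset.1 hA h))
        · intro h
          exact absurd rfl (Finset.ne_of_mem_erase (Finset.mem_powerset.1 hA' h))
      · have := congrFun hval i
        rw [Function.update_of_ne hi, Function.update_of_ne hi] at this
        by_cases h3 : i ∈ A <;> by_cases h4 : i ∈ A'
        · simp [h3, h4]
        · simp only [h3, h4, if_true, if_false] at this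
          exact absurd this (hu i)
        · simp only [h3, h4, if_true, if_false] at this
          exact absurd this.symm (hu i)
        · simp [h3, h4]
    subst e1; subst e2; rfl
  have h3 : Nat.card {A : Finset I // A ∈ (J.erase i0).powerset} = 2 ^ (J.card - 1) := by
    rw [Nat.card_eq_fintype_card, Fintype.card_coe, Finset.card_powerset,
      Finset.card_erase_of_mem hi0]
  rw [Nat.card_prod, h3] at h2
  have h4 : 2 ^ s ≤ 2 ^ (J.card - 1) := Nat.pow_le_pow_right (by norm_num) (by omega)
  calc 2 ^ s * Nat.card {w : ∀ i, T i // (∀ i ∉ J, w i = 1) ∧ w⁻¹ * τ w ∈ R}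
      ≤ 2 ^ (J.card - 1) * Nat.card (T i0) := Nat.mul_le_mul h4 h1
    _ = Nat.card (T i0) * 2 ^ (J.card - 1) := mul_comm _ _
    _ ≤ _ := h2

end Pool.Agent.H74.NZ.FBB
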