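import Pool.Agent.H11.NZ.Targets

/-!
# Module FPB of the board nz_modules
-/

set_option autoImplicit false

open Equiv (Perm)

namespace Pool.Agent.H74.NZ.FPB

open Pool.Agent.H11.NZ

/-- greedy choice of points in different classes -/
theorem greedy {I α : Type*} [Fintype I] [DecidableEq I] [DecidableEq α] (σ : Perm I) (c : I → α)
    (hc : ∀ i k, c i = c k ↔ c (σ i) = c (σ k)) (S : Finset I) :
    ∀ t : ℕ, 3 * t ≤ (S.image c).card → ∃ J : Finset I, J ⊆ S ∧ J.card = t ∧
      ∀ i ∈ J, ∀ k ∈ J, i ≠ k → c i ≠ c k ∧ c i ≠ c (σ k) := by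
  intro t
  induction t with
  | zero => intro _; exact ⟨∅, by simp, by simp, by simp⟩
  | succ t ih =>
    intro h
    obtain ⟨J, hJS, hJc, hJ⟩ := ih (by omega)
    have hBc : (J.image c ∪ (J.image (fun k => c (σ k)) ∪
        J.image (fun k => c (σ.symm k)))).card ≤ 3 * t := by
      have h1 : (J.image c).card ≤ t := Finset.card_image_le.trans hJc.le
      have h2 : (J.image (fun k => c (σ k))).card ≤ t := Finset.card_image_le.trans hJc.le
      have h3 : (J.image (fun k => c (σ.symm k))).card ≤ t := Finset.card_image_le.trans hJc.le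
      have h4 := Finset.card_union_le (J.image c)
        (J.image (fun k => c (σ k)) ∪ J.image (fun k => c (σ.symm k)))
      have h5 := Finset.card_union_le (J.image (fun k => c (σ k)))
        (J.image (fun k => c (σ.symm k)))
      omega
    obtain ⟨a, haS, haB⟩ : ∃ a ∈ S.image c, a ∉ (J.image c ∪ (J.image (fun k => c (σ k)) ∪
        J.image (fun k => c (σ.symm k)))) := by
      apply Finset.exists_mem_notMem_of_card_lt_card
      refine lt_of_le_of_lt hBc (lt_of_lt_of_le ?_ h)
      omega
    obtain ⟨i, hiS, rfl⟩ := Finset.mem_image.1 haS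
    have n1 : ∀ k ∈ J, c i ≠ c k := fun k hk h =>
      haB (Finset.mem_union_left _ (Finset.mem_image.2 ⟨k, hk, h.symm⟩))
    have n2 : ∀ k ∈ J, c i ≠ c (σ k) := fun k hk h =>
      haB (Finset.mem_union_right _ (Finset.mem_union_left _
        (Finset.mem_image.2 ⟨k, hk, h.symm⟩)))
    have n3 : ∀ k ∈ J, c k ≠ c (σ i) := by
      intro k hk h
      apply haB
      refine Finset.mem_union_right _ (Finset.mem_union_right _
        (Finset.mem_image.2 ⟨k, hk, ?_⟩))
      rw [hc, Equiv.apply_symm_apply]
      exact h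
    have hiJ : i ∉ J := fun h => n1 i h rfl
    refine ⟨insert i J, Finset.insert_subset hiS hJS, ?_, ?_⟩
    · rw [Finset.card_insert_of_notMem hiJ, hJc]
    · intro a ha b hb hab
      rcases Finset.mem_insert.1 ha with ha' | ha'
      · rcases Finset.mem_insert.1 hb with hb' | hb'
        · exact absurd (ha'.trans hb'.symm) hab
        · subst ha'
          exact ⟨n1 b hb', n2 b hb'⟩
      · rcases Finset.mem_insert.1 hb with hb' | hb'
        · subst hb'
          exact ⟨(n1 a ha').symm, n3 a ha'⟩
        · exact hJ a ha' b hb' hab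

theorem pow_ineq (s : ℕ) : s * 3 ^ (4 * s + 1) ≤ 4 ^ (4 * s + 1) := by
  have h1 : s ≤ 3 ^ s := (Nat.lt_pow_self (by norm_num)).le
  have h2 : 3 ^ s * 81 ^ s ≤ 256 ^ s := by
    rw [← mul_pow]
    exact Nat.pow_le_pow_left (by norm_num) s
  have e1 : (3 : ℕ) ^ (4 * s + 1) = 81 ^ s * 3 := by
    rw [pow_succ, pow_mul]; norm_num
  have e2 : (4 : ℕ) ^ (4 * s + 1) = 256 ^ s * 4 := by
    rw [pow_succ, pow_mul]; norm_num
  rw [e1, e2]
  calc s * (81 ^ s * 3) = (s * 81 ^ s) * 3 := by ring
    _ ≤ (3 ^ s * 81 ^ s) * 3 := Nat.mul_le_mul_right _ (Nat.mul_le_mul_right _ h1)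
    _ ≤ 256 ^ s * 4 := Nat.mul_le_mul h2 (by norm_num)

theorem pf_fpb : T_FBF → T_FBA → T_FBB → T_FPB := by
  intro hFBF hFBA hFBB s
  refine ⟨3 * (4 * s + 1) * (3 * (4 * s + 1) + 3) + 1, ?_⟩
  intro I _ _ T _ _ R σ τ hO hτ hnc hpart hm
  classical
  -- the equivalence relation
  let rel : I → I → Prop := fun i k => ∀ r ∈ R, r i = 1 ↔ r k = 1
  have key : ∀ (x : ∀ i, T i) (i : I), τ x (σ i) = 1 ↔ x i = 1 := by
    intro x i
    constructor
    · intro h
      set y : ∀ i, T i := Function.update 1 i (x i) with hy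
      have h1 : y i = x i := by simp [hy]
      have h2 : τ y (σ i) = 1 := (hO i y x h1).trans h
      have h3 : τ y = 1 := by
        funext k
        obtain ⟨k', rfl⟩ := σ.surjective k
        by_cases hk : k' = i
        · subst hk; exact h2
        · have h4 : y k' = (1 : ∀ i, T i) k' := by simp [hy, Function.update_of_ne hk]
          have h5 := hO k' y 1 h4
          rw [map_one] at h5
          exact h5
      have h6 : y = 1 := by
        have : τ y = τ 1 := by rw [h3, map_one]
        exact τ.injective this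
      rw [← h1, h6]; rfl
    · intro h
      have h1 : x i = (1 : ∀ i, T i) i := h
      have h2 := hO i x 1 h1
      rw [map_one] at h2
      exact h2
  have hsurj : ∀ r ∈ R, ∃ r' ∈ R, τ r' = r := by
    let g : R → R := fun r => ⟨τ r.1, hτ r.1 r.2⟩
    have hg : Function.Injective g := by
      intro a b hab
      have := congrArg Subtype.val hab
      exact Subtype.ext (τ.injective this)
    have hgs : Function.Surjective g := Finite.surjective_of_injective hg
    intro r hr
    obtain ⟨r', hr'⟩ := hgs ⟨r, hr⟩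
    exact ⟨r'.1, r'.2, congrArg Subtype.val hr'⟩
  have hrel : ∀ i k, rel i k ↔ rel (σ i) (σ k) := by
    intro i k
    constructor
    · intro h r hr
      obtain ⟨r', hr', rfl⟩ := hsurj r hr
      rw [key, key]
      exact h r' hr'
    · intro h r hr
      have := h (τ r) (hτ r hr)
      rwa [key, key] at this
  let cl : I → Finset I := fun i => Finset.univ.filter (fun k => rel i k)
  have hcl : ∀ i k, cl i = cl k ↔ rel i k := by
    intro i k
    constructor
    · intro h
      have h1 : k ∈ cl k := Finset.mem_filter.2 ⟨Finset.mem_univ _, fun r _ => Iff.rfl⟩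
      rw [← h] at h1
      exact (Finset.mem_filter.1 h1).2
    · intro h
      apply Finset.filter_congr
      intro l _
      constructor
      · intro h' r hr; exact (h r hr).symm.trans (h' r hr)
      · intro h' r hr; exact (h r hr).trans (h' r hr)
  have hclσ : ∀ i k, cl i = cl k ↔ cl (σ i) = cl (σ k) := by
    intro i k; rw [hcl, hcl]; exact hrel i k
  rcases Nat.lt_or_ge (σ.support.image cl).card (3 * (4 * s + 1)) with hB | hA
  · -- a large class
    have hpig : (σ.support.image cl).card * (3 * (4 * s + 1) + 3) < σ.support.card := by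
      have : (σ.support.image cl).card * (3 * (4 * s + 1) + 3) ≤
          3 * (4 * s + 1) * (3 * (4 * s + 1) + 3) := Nat.mul_le_mul_right _ hB.le
      omega
    obtain ⟨y, -, hy⟩ := Finset.exists_lt_card_fiber_of_mul_lt_card_of_maps_to
      (fun i hi => Finset.mem_image_of_mem cl hi) hpig
    obtain ⟨J, hJS, hJc, hJ⟩ := greedy σ (fun i : I => i) (fun i k => by simp)
      (σ.support.filter (fun x => cl x = y)) (s + 1) (by
        rw [Finset.image_id']; omega)
    have hJσ : ∀ i ∈ J, σ i ∉ J := by
      intro i hi h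
      have h1 : σ i ≠ i := by
        have := (Finset.mem_filter.1 (hJS hi)).1
        exact Equiv.Perm.mem_support.1 this
      exact (hJ _ h i hi h1).2 rfl
    apply hFBF I T R σ τ hO hτ s J
    intro τ' hO' _
    have h1 := hFBB I T R σ τ' hO' hnc J hJσ (by
      intro i hi j hj
      have h2 : cl i = y := (Finset.mem_filter.1 (hJS hi)).2
      have h3 : cl j = y := (Finset.mem_filter.1 (hJS hj)).2
      exact (hcl i j).1 (h2.trans h3.symm)) s hJc.ge
    exact (Nat.mul_le_mul_right _ (Nat.lt_pow_self (by norm_num)).le).trans h1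
  · -- many classes
    obtain ⟨J, hJS, hJc, hJ⟩ := greedy σ cl hclσ σ.support (4 * s + 1) hA
    have hJσ : ∀ i ∈ J, σ i ∉ J := by
      intro i hi h
      have h1 : σ i ≠ i := Equiv.Perm.mem_support.1 (hJS hi)
      exact (hJ _ h i hi h1).2 rfl
    apply hFBF I T R σ τ hO hτ s J
    intro τ' hO' _
    have h1 := hFBA I T R σ τ' hO' hnc J hJσ (by
      intro i hi
      obtain ⟨j, hji, hj⟩ := hpart i
      have hcij : cl i = cl j := (hcl i j).2 hj
      refine ⟨j, hji, hj, ?_, ?_⟩
      · intro hjJ
        exact (hJ i hi j hjJ hji.symm).1 hcij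
      · intro hk
        by_contra hne
        have h2 : i ≠ σ.symm j := by
          intro h
          apply hne
          rw [h, Equiv.apply_symm_apply]
        have h3 := (hJ i hi _ hk h2).2
        rw [Equiv.apply_symm_apply] at h3
        exact h3 hcij)
    rw [hJc] at h1
    have hpos : 0 < 3 ^ (4 * s + 1) := by positivity
    apply Nat.le_of_mul_le_mul_left _ hpos
    calc 3 ^ (4 * s + 1) * (s * Nat.card {w : ∀ i, T i // (∀ i ∉ J, w i = 1) ∧ w⁻¹ * τ' w ∈ R})
        = (s * 3 ^ (4 * s + 1)) *
          Nat.card {w : ∀ i, T i // (∀ i ∉ J, w i = 1) ∧ w⁻¹ * τ' w ∈ R} := by ring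
      _ ≤ 4 ^ (4 * s + 1) *
          Nat.card {w : ∀ i, T i // (∀ i ∉ J, w i = 1) ∧ w⁻¹ * τ' w ∈ R} :=
            Nat.mul_le_mul_right _ (pow_ineq s)
      _ ≤ _ := h1

end Pool.Agent.H74.NZ.FPB
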